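import Mathlib
import Pool.Agent.H71.Br

set_option autoImplicit false

namespace Pool.Agent.Results.MP_019d96_al.NonTorsion

/-- vertices of the spherically homogeneous rooted tree with alphabets `X 0, X 1, ...`:
a level `l` and a word of length `l` -/
abbrev Vertex (X : ℕ → Type) : Type := Σ l : ℕ, (i : Fin l) → X i

/-- `u` is a prefix of `v`, i.e. `v` lies in the subtree rooted at `u` -/
def Pre {X : ℕ → Type} (u v : Vertex X) : Prop :=
  ∃ h : u.1 ≤ v.1, ∀ i : Fin u.1, u.2 i = v.2 (i.castLE h)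

/-- branch group: faithful action by tree automorphisms, transitive on levels, with all rigid
level stabilisers of finite index -/
def IsBranch (G : Type) [Group G] : Prop :=
  ∃ (X : ℕ → Type) (_ : ∀ i, Finite (X i)) (_ : ∀ i, Nontrivial (X i))
    (_ : MulAction G (Vertex X)), FaithfulSMul G (Vertex X) ∧
    (∀ (g : G) (v : Vertex X), (g • v).1 = v.1) ∧
    (∀ (g : G) (u v : Vertex X), Pre u v → Pre (g • u) (g • v)) ∧
    (∀ u v : Vertex X, u.1 = v.1 → ∃ g : G, g • u = v) ∧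
    ∀ l, (Subgroup.closure
      {g : G | ∃ v : Vertex X, v.1 = l ∧ ∀ u, ¬ Pre v u → g • u = u}).FiniteIndex

/-- the iterates `e_k(x_1, ..., x_n)` of the word `w` -/
def iterate {G : Type} [Group G] {n : ℕ} (w : FreeGroup (Fin (n + 1))) (x : Fin (n + 1) → G) :
    ℕ → G
  | 0 => x 0
  | k + 1 => FreeGroup.lift (Function.update x 0 (iterate w x k)) w

/-- Engel type iterated identity -/
def Satisfies (G : Type) [Group G] {n : ℕ} (w : FreeGroup (Fin (n + 1))) : Prop :=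
  ∀ x : Fin (n + 1) → G, ∃ m, iterate w x m = 1

open Pool.Agent.H71.Br

theorem result : ∃ (n : ℕ) (w : FreeGroup (Fin (n + 1))), w ≠ 1 ∧
    ∃ (G : Type) (_ : Group G), Group.FG G ∧ IsBranch G ∧ Satisfies G w ∧
      ∃ g : G, ¬ IsOfFinOrder g := by
  let := act
  refine ⟨1, (.of 0)⁻¹ * ((.of 1)⁻¹ * .of 0 * .of 1)⁻¹ * .of 0 * ((.of 1)⁻¹ * .of 0 * .of 1),
    by decide, G 0, inferInstance, ?_, ⟨X, inferInstance, fun i => ⟨_, _, s_ne i⟩, act,
    ⟨fun {g h} e => ?_⟩, fun _ _ => rfl, ?_, ?_, fun l => ?_⟩, fun x => ?_, ⟨b 0, b_G 0⟩,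
    fun h => ?_⟩
  · exact (Group.fg_iff_subgroup_fg _).2 ((Subgroup.fg_iff _).2 ⟨_, rfl, Set.toFinite _⟩)
  · refine Subtype.ext (Equiv.ext fun ω => funext fun j => ?_)
    have := congrFun (eq_of_heq (Sigma.mk.inj (e ⟨j + 1, fun i => ω i⟩)).2) ⟨j, j.lt_succ_self⟩
    exact (U.ag (G_U 0 g.2) (ex_res _ ω) j j.lt_succ_self).symm.trans
      (this.trans (U.ag (G_U 0 h.2) (ex_res _ ω) j j.lt_succ_self))
  · rintro g u v ⟨h, e⟩
    refine ⟨h, fun i => U.ag (G_U 0 g.2) (fun j hj => ?_) i i.2⟩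
    have : ex v.2 j = v.2 ⟨j, hj.trans_le h⟩ := dif_pos (hj.trans_le h)
    exact (dif_pos hj).trans ((e ⟨j, hj⟩).trans this.symm)
  · rintro ⟨l, u⟩ ⟨_, v⟩ rfl
    obtain ⟨g, hg, e⟩ := trans l (ex u) (ex v)
    exact ⟨⟨g, hg⟩, congrArg (Sigma.mk l) (funext fun i => (e i i.2).trans (dif_pos i.2))⟩
  · have := Ri_fin l
    refine Subgroup.finiteIndex_of_le (H := Ri l) (Subgroup.closure_mono ?_)
    rintro g ⟨ω, h, hu, e⟩
    refine ⟨⟨l, fun i => ω i⟩, rfl, fun ⟨m, u⟩ hp => congrArg (Sigma.mk m) (funext fun i => ?_)⟩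
    refine Eq.trans ?_ (dif_pos i.2 : ex u i = u i)
    by_cases c : Ag l ω (ex u)
    · have : m < l := not_le.1 fun hl => hp ⟨hl, fun j =>
        (c j j.2).trans (dif_pos (j.2.trans_le hl))⟩
      exact (congrFun ((e _).1 c) i).trans (hu.1 _ i (i.2.trans this))
    · exact congrFun ((e _).2 c) i
  · refine (iter (x 0).2 (x 1).2 (fun k => (iterate _ x k).1) rfl fun k => ?_).imp
      fun m hm => Subtype.ext hm
    simp [iterate]
  · obtain ⟨m, hm, e⟩ := isOfFinOrder_iff_pow_eq_one.1 h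
    exact b_inf hm (congrArg Subtype.val e)

end Pool.Agent.Results.MP_019d96_al.NonTorsion
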